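import Pool.Agent.L0h18.HZ.Defs

/-! Module SEP of the project HZ: separation from a closed convex cone of self-adjoint elements. -/

set_option autoImplicit false

open Pool.Agent.Y167 (Sys)
open Topology

namespace Pool.Agent.L0h59.HZ

open Pool.Agent.L0h18.HZ Pool.Agent.Y167 Pool.Agent.Y167.Sys

theorem aeval_diag {r : ℕ} (v : Fin r → ℝ) (P : Polynomial ℝ) :
    Polynomial.aeval (Matrix.diagonal v) P = Matrix.diagonal fun i => P.eval (v i) := by
  have h : Matrix.diagonal v = Matrix.diagonalAlgHom (n := Fin r) (α := ℝ) ℝ v := rfl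
  rw [h, Polynomial.aeval_algHom_apply, Polynomial.aeval_pi_apply]
  simp only [Polynomial.coe_aeval_eq_eval]
  rfl

/-- functions on the spectrum are polynomials -/
theorem exists_poly {r : ℕ} (v : Fin r → ℝ) (g : ℝ → ℝ) :
    ∃ P : Polynomial ℝ, ∀ i, P.eval (v i) = g (v i) := by
  classical
  refine ⟨Lagrange.interpolate (Finset.univ.image v) id g, fun i => ?_⟩
  exact Lagrange.eval_interpolate_at_node (s := Finset.univ.image v) (v := id) g
    (Set.injOn_id _) (Finset.mem_image_of_mem v (Finset.mem_univ i))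

/-- the negative part of a self-adjoint element -/
theorem neg_part {A : Type} [Ring A] [Algebra ℝ A] {r : ℕ} (S : Sys A r) (b : A)
    (hb : S.st b = b) : ∃ n w : A, S.st n = n ∧ S.st w = w ∧ w * b * w = -(n * n) ∧
      (n = 0 → S.Psd b) := by
  have hH : (S.mat b).IsHermitian := by
    show (S.mat b).conjTranspose = S.mat b
    rw [Matrix.conjTranspose_eq_transpose_of_trivial, ← S.mat_st, hb]
  obtain ⟨φ, lam, hφ, hpsd⟩ : ∃ (φ : Matrix (Fin r) (Fin r) ℝ ≃⋆ₐ[ℝ] Matrix (Fin r) (Fin r) ℝ)
      (lam : Fin r → ℝ), S.mat b = φ (Matrix.diagonal lam) ∧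
      ((∀ i, 0 ≤ lam i) → (S.mat b).PosSemidef) := by
    refine ⟨Unitary.conjStarAlgAut ℝ _ hH.eigenvectorUnitary, hH.eigenvalues, ?_, ?_⟩
    · exact hH.spectral_theorem
    · intro h
      exact (hH.posSemidef_iff_eigenvalues_nonneg).2 h
  have hpol : ∀ P : Polynomial ℝ, S.mat (Polynomial.aeval b P) =
      φ (Matrix.diagonal fun i => P.eval (lam i)) := by
    intro P
    rw [← Polynomial.aeval_algHom_apply, hφ, Polynomial.aeval_algHom_apply, aeval_diag]
  have hst : ∀ P : Polynomial ℝ, S.st (Polynomial.aeval b P) = Polynomial.aeval b P := by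
    intro P
    apply S.mat_inj
    rw [S.mat_st, hpol, ← Matrix.conjTranspose_eq_transpose_of_trivial,
      ← Matrix.star_eq_conjTranspose, ← map_star, Matrix.star_eq_conjTranspose,
      Matrix.diagonal_conjTranspose, star_trivial]
  obtain ⟨P, hP⟩ := exists_poly lam fun x => if x < 0 then Real.sqrt (-x) else 0
  obtain ⟨Q, hQ⟩ := exists_poly lam fun x => if x < 0 then 1 else 0
  refine ⟨Polynomial.aeval b P, Polynomial.aeval b Q, hst P, hst Q, ?_, ?_⟩
  · apply S.mat_inj
    rw [map_neg, map_mul, map_mul, map_mul, hpol, hpol]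
    nth_rw 1 [hφ]
    rw [← map_mul, ← map_mul, ← map_mul, ← map_neg, Matrix.diagonal_mul_diagonal,
      Matrix.diagonal_mul_diagonal, Matrix.diagonal_mul_diagonal, Matrix.diagonal_neg]
    congr 2
    ext i
    rw [hP, hQ]
    show _ = -(_ : ℝ)
    split_ifs with h
    · rw [Real.mul_self_sqrt (by linarith)]
      ring
    · ring
  · intro h0
    apply hpsd
    intro i
    have h1 := hpol P
    rw [h0, map_zero] at h1
    have h2 : (Matrix.diagonal fun i => P.eval (lam i)) = 0 :=
      (map_eq_zero_iff φ (EquivLike.injective φ)).1 h1.symm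
    have h3 := congrFun (Matrix.diagonal_eq_zero.1 h2) i
    simp only [Pi.zero_apply] at h3
    rw [hP] at h3
    by_contra hneg
    push Not at hneg
    rw [if_pos hneg, Real.sqrt_eq_zero (by linarith)] at h3
    linarith

/-- SEP -/
theorem sep : S_SEP := by
  intro A _ _ r ρ S Φ hΦ D hD x a hx ha H p hp
  by_contra hpD
  -- separation
  have hconv : Convex ℝ D := by
    intro y hy z hz s t hs ht _
    exact hD.add _ (hD.smul s hs _ hy) _ (hD.smul t ht _ hz)
  have h0D : (0 : Fin ρ → ℝ) ∈ D := H 0 0 (by simp)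
  obtain ⟨f, u, hfp, hfD⟩ := geometric_hahn_banach_point_closed hconv hD.closed hpD
  have hu : u < 0 := by
    have := hfD 0 h0D
    rwa [map_zero] at this
  have hf : ∀ y ∈ D, 0 ≤ f y := by
    intro y hy
    by_contra hneg
    push Not at hneg
    have h1 := hfD ((u / f y) • y) (hD.smul _ (div_nonneg_of_nonpos hu.le hneg.le) _ hy)
    rw [map_smul, smul_eq_mul, div_mul_cancel₀ _ hneg.ne] at h1
    exact lt_irrefl _ h1
  have hfp' : f p < 0 := hfp.trans hu
  -- the functional is a trace
  have hsa : ∀ y, S.st (Φ y) = Φ y := fun y => (hΦ.range _).2 ⟨y, rfl⟩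
  let L : (Fin ρ → ℝ) →ₗ[ℝ] Module.Dual ℝ (Fin ρ → ℝ) :=
    LinearMap.mk₂ ℝ (fun y z => S.tr (Φ y * Φ z))
      (fun y y' z => by rw [map_add, add_mul, map_add])
      (fun c y z => by rw [map_smul, smul_mul_assoc, map_smul])
      (fun y z z' => by rw [map_add, mul_add, map_add])
      (fun c y z => by rw [map_smul, mul_smul_comm, map_smul])
  have hL : ∀ y z, L y z = S.tr (Φ y * Φ z) := fun y z => rfl
  have hLi : Function.Injective L := by
    rw [← LinearMap.ker_eq_bot, LinearMap.ker_eq_bot']
    intro y hy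
    by_contra hne
    have h1 : Φ y ≠ 0 := fun h => hne (hΦ.inj (by rw [h, map_zero]))
    have h2 := tr_st_mul_pos (S := S) h1
    rw [hsa, ← hL, hy] at h2
    exact lt_irrefl _ h2
  have hLs : Function.Surjective L :=
    (LinearMap.injective_iff_surjective_of_finrank_eq_finrank
      (Subspace.dual_finrank_eq).symm).1 hLi
  obtain ⟨y0, hy0⟩ := hLs (f : (Fin ρ → ℝ) →ₗ[ℝ] ℝ)
  have hfb : ∀ z, f z = S.tr (Φ y0 * Φ z) := by
    intro z
    rw [← hL, hy0]
    rfl
  set b := Φ y0 with hb
  have hbs : S.st b = b := hsa y0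
  obtain ⟨n, w, hn, hw, hnw, hpsd⟩ := neg_part S b hbs
  -- all products `x r n` vanish
  have key : ∀ c : A, x * c * n = 0 := by
    intro c
    by_contra hne
    have hpos := (pd_iff'.1 ha).2 _ hne
    have hsq : S.st (S.st (x * (c * w)) * a * (x * (c * w)))
        = S.st (x * (c * w)) * a * (x * (c * w)) := (ha.psd.conj _).sa
    obtain ⟨x', hx'⟩ := (hΦ.range _).1 hsq
    have h1 := hf x' (H (c * w) x' hx')
    rw [hfb, hx'] at h1
    have h2 : S.tr (b * (S.st (x * (c * w)) * a * (x * (c * w)))) =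
        -S.tr (S.st (x * c * n) * a * (x * c * n)) := by
      have e1 : S.tr (b * (S.st (x * (c * w)) * a * (x * (c * w)))) =
          S.tr ((x * c * (w * b * w)) * (S.st (x * c) * a)) := by
        rw [S.tr_comm, S.st_mul, S.st_mul, S.st_mul, hw]
        rw [show w * S.st c * S.st x * a * (x * (c * w)) * b =
          (w * (S.st c * S.st x * a)) * (x * c * w * b) by noncomm_ring, S.tr_comm]
        rw [show x * c * w * b * (w * (S.st c * S.st x * a)) =
          x * c * (w * b * w) * (S.st c * S.st x * a) by noncomm_ring]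
      have e2 : S.tr (S.st (x * c * n) * a * (x * c * n)) =
          S.tr ((x * c * (n * n)) * (S.st (x * c) * a)) := by
        rw [S.st_mul (x * c) n, hn]
        rw [show n * S.st (x * c) * a * (x * c * n) =
          (n * (S.st (x * c) * a)) * (x * c * n) by noncomm_ring, S.tr_comm]
        rw [show x * c * n * (n * (S.st (x * c) * a)) =
          x * c * (n * n) * (S.st (x * c) * a) by noncomm_ring]
      rw [e1, e2, hnw, mul_neg, neg_mul, map_neg]
    rw [h2] at h1
    linarith
  obtain ⟨k, P, Q, hPQ⟩ := hx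
  have hn0 : n = 0 := by
    calc n = (∑ i, P i * x * Q i) * n := by rw [hPQ, one_mul]
      _ = ∑ i, P i * (x * Q i * n) := by
        rw [Finset.sum_mul]
        exact Finset.sum_congr rfl fun i _ => by noncomm_ring
      _ = 0 := Finset.sum_eq_zero fun i _ => by rw [key, mul_zero]
  have h1 := tr_mul_nonneg (hpsd hn0) (show S.Psd (Φ p) from hp)
  rw [← hfb] at h1
  linarith

end Pool.Agent.L0h59.HZ
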